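import Pool.Agent.Work.MP_ce2d68_du.Interface

set_option autoImplicit false

open Polynomial Filter Topology
open scoped ComplexConjugate

/-!
`NODES` (helper36): nodes on the circles, by induction over the centres.
-/

namespace Pool.Agent.Work.MP_ce2d68_du.h36

open Pool.Agent.Work.MP_ce2d68_du Pool.Agent.Work.MP_ce2d68_st

noncomputable def fl (t : ℝ) (p z : ℂ) : ℝ := Real.log (max ‖z - p‖ t)

theorem fl_lip {t : ℝ} (ht : 0 < t) (p x y : ℂ) : |fl t p x - fl t p y| ≤ ‖x - y‖ / t := by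
  have key : ∀ a b : ℝ, t ≤ a → t ≤ b → Real.log a - Real.log b ≤ |a - b| / t := by
    intro a b ha hb
    have ha0 : 0 < a := ht.trans_le ha
    have hb0 : 0 < b := ht.trans_le hb
    rw [← Real.log_div ha0.ne' hb0.ne']
    have h1 := Real.log_le_sub_one_of_pos (div_pos ha0 hb0)
    have h2 : a / b - 1 = (a - b) / b := by field_simp
    rw [h2] at h1
    refine h1.trans ?_
    calc (a - b) / b ≤ |a - b| / b := by gcongr; exact le_abs_self _
      _ ≤ |a - b| / t := by gcongr
  have hmax : |max ‖x - p‖ t - max ‖y - p‖ t| ≤ ‖x - y‖ := by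
    refine (abs_max_sub_max_le_abs _ _ _).trans ?_
    have := abs_norm_sub_norm_le (x - p) (y - p)
    simpa using this
  have h3 := key _ _ (le_max_right ‖x - p‖ t) (le_max_right ‖y - p‖ t)
  have h4 := key _ _ (le_max_right ‖y - p‖ t) (le_max_right ‖x - p‖ t)
  rw [abs_sub_comm (max ‖y - p‖ t)] at h4
  have h5 : |max ‖x - p‖ t - max ‖y - p‖ t| / t ≤ ‖x - y‖ / t := by gcongr
  unfold fl
  rw [abs_le]
  constructor <;> linarith

theorem fl_cont {t : ℝ} (ht : 0 < t) (p : ℂ) : Continuous (fl t p) := by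
  unfold fl
  refine Continuous.log (by fun_prop) fun z => ?_
  exact (ht.trans_le (le_max_right _ _)).ne'

theorem fl_int {t : ℝ} (ht : 0 < t) (p q : ℂ) (r : ℝ) : CircleIntegrable (fl t p) q r :=
  (fl_cont ht p).continuousOn.circleIntegrable'

theorem Tn_pos {t : ℝ} (ht : 0 < t) (G : Finset ℂ) (n : ℂ → ℕ) (z : ℂ) : 0 < Tn G t n z := by
  unfold Tn
  exact Finset.prod_pos fun a _ => pow_pos (ht.trans_le (le_max_right _ _)) _

theorem log_Tn {t : ℝ} (ht : 0 < t) (G : Finset ℂ) (n : ℂ → ℕ) (z : ℂ) :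
    Real.log (Tn G t n z) = ∑ a ∈ G, n a * fl t a z := by
  unfold Tn fl
  rw [Real.log_prod fun a _ => (pow_pos (ht.trans_le (le_max_right _ _)) _).ne']
  exact Finset.sum_congr rfl fun a _ => Real.log_pow _ _

/-- mutual energy -/
noncomputable def EA (t : ℝ) (q a : ℂ) : ℝ := Real.circleAverage (fl t q) a t

theorem ca_Tn {t : ℝ} (ht : 0 < t) (G : Finset ℂ) (n : ℂ → ℕ) (a : ℂ) :
    Real.circleAverage (fun z => Real.log (Tn G t n z)) a t = ∑ q ∈ G, n q * EA t q a := by
  have e : (fun z => Real.log (Tn G t n z)) = ∑ q ∈ G, (n q : ℝ) • fl t q := by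
    funext z
    rw [log_Tn ht, Finset.sum_apply]
    rfl
  rw [e, Real.circleAverage_sum fun q _ => (fl_int ht q a t).const_smul]
  refine Finset.sum_congr rfl fun q _ => ?_
  rw [Real.circleAverage_smul]
  rfl

/-- the energy of a node set -/
noncomputable def EN (N : Finset ℂ) : ℝ := ∑ a ∈ N, ∑ b ∈ N.erase a, Real.log ‖a - b‖

theorem EN_union {N P : Finset ℂ} (h : Disjoint N P) :
    EN (N ∪ P) = EN N + EN P + 2 * ∑ a ∈ N, ∑ b ∈ P, Real.log ‖a - b‖ := by
  classical
  unfold EN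
  rw [Finset.sum_union h]
  have h1 : ∀ a ∈ N, ∑ b ∈ (N ∪ P).erase a, Real.log ‖a - b‖
      = ∑ b ∈ N.erase a, Real.log ‖a - b‖ + ∑ b ∈ P, Real.log ‖a - b‖ := by
    intro a ha
    have haP : a ∉ P := Finset.disjoint_left.1 h ha
    rw [Finset.erase_union_distrib, Finset.erase_eq_of_notMem haP,
      Finset.sum_union (Finset.disjoint_of_subset_left (Finset.erase_subset _ _) h)]
  have h2 : ∀ a ∈ P, ∑ b ∈ (N ∪ P).erase a, Real.log ‖a - b‖
      = ∑ b ∈ N, Real.log ‖a - b‖ + ∑ b ∈ P.erase a, Real.log ‖a - b‖ := by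
    intro a ha
    have haN : a ∉ N := Finset.disjoint_right.1 h ha
    rw [Finset.erase_union_distrib, Finset.erase_eq_of_notMem haN,
      Finset.sum_union (Finset.disjoint_of_subset_right (Finset.erase_subset _ _) h)]
  rw [Finset.sum_congr rfl h1, Finset.sum_congr rfl h2, Finset.sum_add_distrib, Finset.sum_add_distrib]
  have h3 : ∑ a ∈ P, ∑ b ∈ N, Real.log ‖a - b‖ = ∑ a ∈ N, ∑ b ∈ P, Real.log ‖a - b‖ := by
    rw [Finset.sum_comm]
    refine Finset.sum_congr rfl fun a _ => Finset.sum_congr rfl fun b _ => ?_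
    rw [norm_sub_rev]
  rw [h3]
  ring

/-- the invariant of the induction -/
def Inv (t : ℝ) (G : Finset ℂ) (C : ℝ) (n : ℂ → ℕ) (N : Finset ℂ) : Prop :=
  N.card = ∑ a ∈ G, n a ∧
    (∀ z : ℂ, ∏ b ∈ N, ‖z - b‖ ≤ C * Tn G t n z) ∧
    (∀ a ∈ N, ∀ z : ℂ, ∏ b ∈ N.erase a, ‖z - b‖ ≤ C * N.card * Tn G t n z) ∧
    ((∑ a ∈ G, n a * ∑ q ∈ G, n q * EA t q a) - C * N.card ≤ EN N) ∧
    ∀ f : ℂ → ℝ, (∀ x y, |f x - f y| ≤ ‖x - y‖ / t) →
      |∑ a ∈ N, f a - ∑ q ∈ G, n q * Real.circleAverage f q t| ≤ C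

theorem Inv.mono {t : ℝ} (ht : 0 < t) {G : Finset ℂ} {C C' : ℝ} {n : ℂ → ℕ} {N : Finset ℂ} (h : Inv t G C n N)
    (hC : C ≤ C') : Inv t G C' n N := by
  obtain ⟨h1, h2, h3, h4, h5⟩ := h
  have hT := fun z => (Tn_pos ht G n z).le
  refine ⟨h1, fun z => (h2 z).trans (by gcongr; exact hT z), fun a ha z => (h3 a ha z).trans ?_, ?_,
    fun f hf => (h5 f hf).trans hC⟩
  · have := hT z
    gcongr
  · have : C * N.card ≤ C' * N.card := by gcongr
    linarith

theorem step (hR : Stmt_ROT) (hP : Stmt_POLY) (hS : Stmt_SYMC) {t : ℝ} (ht : 0 < t) {G : Finset ℂ} {p : ℂ}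
    (hp : p ∉ G) {C : ℝ} (hC : 1 ≤ C) {n : ℂ → ℕ} {N : Finset ℂ} (h : Inv t G C n N) :
    ∃ N' : Finset ℂ, Inv t (insert p G) (5 * C + C / t + |Real.log t| + 2 * Real.pi) n N' := by
  classical
  have hpi := Real.pi_pos
  have hCt : 0 < C / t := by positivity
  have hlt := abs_nonneg (Real.log t)
  have hlt' := le_abs_self (Real.log t)
  set C' := 5 * C + C / t + |Real.log t| + 2 * Real.pi with hC'
  rcases Nat.eq_zero_or_pos (n p) with h0 | hm
  · refine ⟨N, Inv.mono ht (C := C) ?_ (by linarith)⟩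
    obtain ⟨h1, h2, h3, h4, h5⟩ := h
    have eT : ∀ z, Tn (insert p G) t n z = Tn G t n z := by
      intro z
      unfold Tn
      rw [Finset.prod_insert hp, h0, pow_zero, one_mul]
    have eS : ∀ F : ℂ → ℝ, ∑ q ∈ insert p G, n q * F q = ∑ q ∈ G, n q * F q := by
      intro F
      rw [Finset.sum_insert hp, h0]
      simp
    refine ⟨?_, fun z => ?_, fun a ha z => ?_, ?_, fun f hf => ?_⟩
    · rw [Finset.sum_insert hp, h0, zero_add]
      exact h1
    · rw [eT]
      exact h2 z
    · rw [eT]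
      exact h3 a ha z
    · simp only [eS]
      exact h4
    · rw [eS]
      exact h5 f hf
  · set m := n p with hmdef
    obtain ⟨ζ, hζ, hne, hrot⟩ := hR N p t m ht hm
    obtain ⟨P, hPc, hPt, hPp, hPb, hPE, hPa⟩ := hP p ζ t m ht hm hζ
    obtain ⟨h1, h2, h3, h4, h5⟩ := h
    have hdis : Disjoint N P := by
      rw [Finset.disjoint_left]
      intro a ha ha'
      apply hne a ha
      have h6 := hPp a
      rw [Finset.prod_eq_zero ha' (sub_self a)] at h6
      exact sub_eq_zero.1 h6.symm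
    have hcard : (N ∪ P).card = N.card + m := by rw [Finset.card_union_of_disjoint hdis, hPc]
    have hT : ∀ z, Tn (insert p G) t n z = (max ‖z - p‖ t) ^ m * Tn G t n z := fun z => by
      unfold Tn
      rw [Finset.prod_insert hp]
    have hTp := fun z => (Tn_pos ht G n z).le
    have hM : ∀ z, 0 ≤ (max ‖z - p‖ t) ^ m := fun z => pow_nonneg (ht.le.trans (le_max_right _ _)) _
    have hPn : ∀ z, ∏ b ∈ P, ‖z - b‖ ≤ 2 * (max ‖z - p‖ t) ^ m := by
      intro z
      rw [← norm_prod, hPp z]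
      refine (norm_sub_le _ _).trans ?_
      rw [norm_pow, norm_pow, norm_mul, hζ, mul_one, Complex.norm_real, Real.norm_of_nonneg ht.le]
      have a1 : ‖z - p‖ ^ m ≤ (max ‖z - p‖ t) ^ m := by
        gcongr
        exact le_max_left _ _
      have a2 : t ^ m ≤ (max ‖z - p‖ t) ^ m := by
        gcongr
        exact le_max_right _ _
      linarith
    have hcast : ((N ∪ P).card : ℝ) = N.card + m := by
      rw [hcard]
      push_cast
      ring
    have hN0 : (0 : ℝ) ≤ N.card := Nat.cast_nonneg _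
    have hm0 : (0 : ℝ) ≤ m := Nat.cast_nonneg _
    -- cross terms
    have hcr : ∀ a ∈ N, ∑ b ∈ P, Real.log ‖a - b‖ = Real.log ‖(a - p) ^ m - (t * ζ) ^ m‖ := by
      intro a ha
      rw [← hPp a, norm_prod, Real.log_prod]
      intro b hb
      rw [norm_ne_zero_iff, sub_ne_zero]
      rintro rfl
      exact Finset.disjoint_left.1 hdis ha hb
    have hcross : (m : ℝ) * ∑ a ∈ N, fl t p a ≤ ∑ a ∈ N, ∑ b ∈ P, Real.log ‖a - b‖ := by
      rw [Finset.sum_congr rfl hcr, Finset.mul_sum]
      exact hrot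
    have hfl := h5 (fl t p) (fl_lip ht p)
    have hsym : ∀ q, EA t q p = EA t p q := fun q => (hS q p t ht).1
    have hself : EA t p p = Real.log t := (hS p p t ht).2
    set S := ∑ q ∈ G, n q * EA t p q with hSd
    have hfl' : S - C ≤ ∑ a ∈ N, fl t p a := by
      have h6 := (abs_le.1 hfl).1
      change -C ≤ ∑ a ∈ N, fl t p a - S at h6
      linarith
    have hcross2 : (m : ℝ) * (S - C) ≤ ∑ a ∈ N, ∑ b ∈ P, Real.log ‖a - b‖ :=
      (mul_le_mul_of_nonneg_left hfl' hm0).trans hcross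
    refine ⟨N ∪ P, ?_, fun z => ?_, fun a ha z => ?_, ?_, fun f hf => ?_⟩
    · rw [hcard, Finset.sum_insert hp, h1, add_comm]
    · rw [Finset.prod_union hdis, hT]
      calc (∏ b ∈ N, ‖z - b‖) * ∏ b ∈ P, ‖z - b‖
          ≤ (C * Tn G t n z) * (2 * (max ‖z - p‖ t) ^ m) :=
            mul_le_mul (h2 z) (hPn z) (Finset.prod_nonneg fun b _ => norm_nonneg (z - b))
              (mul_nonneg (by linarith) (hTp z))
        _ = 2 * C * ((max ‖z - p‖ t) ^ m * Tn G t n z) := by ring
        _ ≤ C' * ((max ‖z - p‖ t) ^ m * Tn G t n z) := by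
            gcongr
            · exact mul_nonneg (hM z) (hTp z)
            · linarith
    · rw [hT, hcast]
      have hMT := mul_nonneg (hM z) (hTp z)
      rcases Finset.mem_union.1 ha with ha | ha
      · have haP : a ∉ P := Finset.disjoint_left.1 hdis ha
        rw [Finset.erase_union_distrib, Finset.erase_eq_of_notMem haP,
          Finset.prod_union (Finset.disjoint_of_subset_left (Finset.erase_subset _ _) hdis)]
        calc (∏ b ∈ N.erase a, ‖z - b‖) * ∏ b ∈ P, ‖z - b‖
            ≤ (C * N.card * Tn G t n z) * (2 * (max ‖z - p‖ t) ^ m) :=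
              mul_le_mul (h3 a ha z) (hPn z) (Finset.prod_nonneg fun b _ => norm_nonneg (z - b))
                (mul_nonneg (mul_nonneg (by linarith) hN0) (hTp z))
          _ = 2 * C * N.card * ((max ‖z - p‖ t) ^ m * Tn G t n z) := by ring
          _ ≤ C' * (N.card + m) * ((max ‖z - p‖ t) ^ m * Tn G t n z) := by
              gcongr
              · linarith
              · linarith
      · have haN : a ∉ N := Finset.disjoint_right.1 hdis ha
        rw [Finset.erase_union_distrib, Finset.erase_eq_of_notMem haN,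
          Finset.prod_union (Finset.disjoint_of_subset_right (Finset.erase_subset _ _) hdis)]
        calc (∏ b ∈ N, ‖z - b‖) * ∏ b ∈ P.erase a, ‖z - b‖
            ≤ (C * Tn G t n z) * (m / t * (max ‖z - p‖ t) ^ m) :=
              mul_le_mul (h2 z) (hPb a ha z) (Finset.prod_nonneg fun b _ => norm_nonneg (z - b))
                (mul_nonneg (by linarith) (hTp z))
          _ = C / t * m * ((max ‖z - p‖ t) ^ m * Tn G t n z) := by ring
          _ ≤ C' * (N.card + m) * ((max ‖z - p‖ t) ^ m * Tn G t n z) := by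
              gcongr
              · linarith
              · linarith
    · rw [hcast, EN_union hdis]
      have e1 : ∑ a ∈ insert p G, (n a : ℝ) * ∑ q ∈ insert p G, (n q : ℝ) * EA t q a
          = (m : ℝ) ^ 2 * Real.log t + 2 * m * S + ∑ a ∈ G, (n a : ℝ) * ∑ q ∈ G, (n q : ℝ) * EA t q a := by
        rw [Finset.sum_insert hp, Finset.sum_insert hp, hself]
        have e2 : ∑ a ∈ G, (n a : ℝ) * ∑ q ∈ insert p G, (n q : ℝ) * EA t q a
            = m * S + ∑ a ∈ G, (n a : ℝ) * ∑ q ∈ G, (n q : ℝ) * EA t q a := by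
          rw [hSd, Finset.mul_sum, ← Finset.sum_add_distrib]
          refine Finset.sum_congr rfl fun a _ => ?_
          rw [Finset.sum_insert hp]
          ring
        have e3 : ∑ q ∈ G, (n q : ℝ) * EA t q p = S := by
          rw [hSd]
          exact Finset.sum_congr rfl fun q _ => by rw [hsym]
        rw [e2, e3]
        ring
      rw [e1]
      change _ ≤ EN P at hPE
      have e4 : C * N.card ≤ C' * N.card := by gcongr; linarith
      have e5 : (|Real.log t| + 2 * C) * m ≤ C' * m := by gcongr; linarith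
      have e6 : Real.log t * m ≤ |Real.log t| * m := by gcongr
      nlinarith [hcross2, hPE, h4, e4, e5, e6]
    · rw [Finset.sum_union hdis, Finset.sum_insert hp]
      have h6 := h5 f hf
      have h7 := hPa f hf
      have e1 : ∑ a ∈ N, f a + ∑ a ∈ P, f a - ((m : ℝ) * Real.circleAverage f p t
          + ∑ q ∈ G, (n q : ℝ) * Real.circleAverage f q t)
          = (∑ a ∈ N, f a - ∑ q ∈ G, (n q : ℝ) * Real.circleAverage f q t)
            + (∑ a ∈ P, f a - m * Real.circleAverage f p t) := by ring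
      rw [e1]
      refine (abs_add_le _ _).trans ?_
      linarith

theorem inv_all (hR : Stmt_ROT) (hP : Stmt_POLY) (hS : Stmt_SYMC) {t : ℝ} (ht : 0 < t) (G : Finset ℂ) :
    ∃ C : ℝ, 1 ≤ C ∧ ∀ n : ℂ → ℕ, ∃ N : Finset ℂ, Inv t G C n N := by
  classical
  induction G using Finset.induction with
  | empty =>
    refine ⟨1, le_refl _, fun n => ⟨∅, ?_, fun z => ?_, fun a ha z => ?_, ?_, fun f _ => ?_⟩⟩
    · simp
    · simp [Tn]
    · simp at ha
    · simp [EN]
    · simp
  | insert p G hp ih =>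
    obtain ⟨C, hC, h⟩ := ih
    have hpi := Real.pi_pos
    have hCt : 0 < C / t := by positivity
    have hlt := abs_nonneg (Real.log t)
    refine ⟨5 * C + C / t + |Real.log t| + 2 * Real.pi, by linarith, fun n => ?_⟩
    obtain ⟨N, hN⟩ := h n
    exact step hR hP hS ht hp hC hN

theorem p_NODES (hR : Stmt_ROT) (hP : Stmt_POLY) (hS : Stmt_SYMC) : Stmt_NODES := by
  intro G t ht
  obtain ⟨C, hC, h⟩ := inv_all hR hP hS ht G
  refine ⟨C, by linarith, fun n _ => ?_⟩
  obtain ⟨N, h1, _, h3, h4, _⟩ := h n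
  refine ⟨N, h1, h3, ?_⟩
  simp only [ca_Tn ht]
  exact h4

end Pool.Agent.Work.MP_ce2d68_du.h36
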